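import Mathlib
import Pool.Agent.V11243.FillPara

/-!
# A subspace of an uncountable product of non-compact spaces that fills all countable subproducts
is not paracompact
-/

namespace Pool.Agent.Results.MP_5f6599_gt.NotParacompact

open Set Topology Filter
open Pool.Agent.V11243.FillPara

universe u v

/-- `D ⊆ ∏ X_i` fills countable subproducts: `π_J(D) = ∏_{j ∈ J} X_j` for every countable
`J ⊆ I`. -/
def Fills {I : Type u} {X : I → Type v} (D : Set (∀ i, X i)) : Prop :=
  ∀ J : Set I, J.Countable → (fun (x : ∀ i, X i) (j : J) => x j) '' D = Set.univ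

/-- A non-compact paracompact `T1` space contains a closed copy of `ℕ`. -/
theorem exists_nat {Y : Type*} [TopologicalSpace Y] [T1Space Y] [ParacompactSpace Y]
    (h : ¬ CompactSpace Y) : ∃ f : ℕ → Y, IsClosedEmbedding f := by
  classical
  have h1 : ¬ IsCompact (Set.univ : Set Y) := fun h' => h ⟨h'⟩
  rw [isCompact_iff_finite_subcover] at h1
  push Not at h1
  obtain ⟨ι, u, huo, huc, hnf⟩ := h1
  obtain ⟨v, hvo, hvc, hvlf, hvs⟩ := precise_refinement u huo
    (Set.eq_univ_of_univ_subset huc)
  let S : Set ι := {i | (v i).Nonempty}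
  have hS : S.Infinite := by
    intro hfin
    obtain hn := hnf hfin.toFinset
    apply hn
    intro y _
    have := (Set.ext_iff.1 hvc y).2 (Set.mem_univ _)
    obtain ⟨i, hi⟩ := Set.mem_iUnion.1 this
    refine Set.mem_iUnion₂.2 ⟨i, ?_, hvs i hi⟩
    rw [Set.Finite.mem_toFinset]
    exact ⟨y, hi⟩
  choose x hx using fun i : S => i.2
  have hpf : ∀ y : Y, {i : S | x i = y}.Finite := by
    intro y
    have h2 := hvlf.point_finite y
    have h3 : {i : S | x i = y} ⊆ Subtype.val ⁻¹' {b | y ∈ v b} := by
      intro i hi
      have : x i = y := hi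
      show y ∈ v i
      rw [← this]
      exact hx i
    exact (h2.preimage Subtype.val_injective.injOn).subset h3
  have hclosed : ∀ A : Set S, IsClosed (x '' A) := by
    intro A
    have h2 : x '' A = ⋃ i : A, {x i} := by
      ext y
      simp only [mem_image, mem_iUnion, mem_singleton_iff]
      constructor
      · rintro ⟨i, hi, rfl⟩
        exact ⟨⟨i, hi⟩, rfl⟩
      · rintro ⟨⟨i, hi⟩, rfl⟩
        exact ⟨i, hi, rfl⟩
    rw [h2]
    apply LocallyFinite.isClosed_iUnion
    · have h3 : LocallyFinite (fun i : A => v i.1) :=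
        hvlf.comp_injective (g := fun i : A => (i.1 : ι)) (Subtype.val_injective.comp Subtype.val_injective)
      refine h3.subset ?_
      intro i y hy
      rw [mem_singleton_iff] at hy
      rw [hy]
      exact hx i.1
    · intro i
      exact isClosed_singleton
  have hSi : Infinite S := hS.to_subtype
  have hinf : (Set.range x).Infinite := by
    intro hfin
    have : (Set.univ : Set S).Finite := by
      have h4 : (Set.univ : Set S) ⊆ ⋃ y ∈ Set.range x, {i : S | x i = y} := by
        intro i _
        refine Set.mem_iUnion₂.2 ⟨x i, ⟨i, rfl⟩, rfl⟩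
      exact (hfin.biUnion fun y _ => hpf y).subset h4
    exact Set.infinite_univ this
  obtain ⟨f, hf⟩ : ∃ f : ℕ → S, Function.Injective (x ∘ f) := by
    have e := hinf.natEmbedding
    choose g hg using fun n => (e n).2
    refine ⟨g, ?_⟩
    intro n m hnm
    apply e.injective
    apply Subtype.ext
    rw [← hg n, ← hg m]
    exact hnm
  refine ⟨x ∘ f, ?_⟩
  refine .of_continuous_injective_isClosedMap continuous_of_discreteTopology hf ?_
  intro B _
  rw [Set.image_comp]
  exact hclosed _

/-- `ℕ^I` is not paracompact for uncountable `I`. -/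
theorem not_paracompact_nat {I : Type*} [Uncountable I] : ¬ ParacompactSpace (I → ℕ) := by
  classical
  intro hP
  let ι := {p : I × I // p.1 ≠ p.2}
  let U : ι → Set (I → ℕ) := fun p => {x | x p.1.1 = x p.1.2}
  have hUo : ∀ p, IsOpen (U p) := by
    intro p
    have hc : Continuous (fun x : I → ℕ => (x p.1.1, x p.1.2)) :=
      (continuous_apply _).prodMk (continuous_apply _)
    exact (isOpen_discrete {q : ℕ × ℕ | q.1 = q.2}).preimage hc
  have hUc : (⋃ p, U p) = Set.univ := by
    apply Set.eq_univ_of_forall
    intro x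
    have : ¬ Function.Injective x := by
      intro hinj
      exact not_countable (α := I) hinj.countable
    rw [Function.Injective] at this
    push Not at this
    obtain ⟨a, b, hab, hne⟩ := this
    exact Set.mem_iUnion.2 ⟨⟨(a, b), hne⟩, hab⟩
  obtain ⟨v, hvo, hvc, hvlf, hvs⟩ := precise_refinement U hUo hUc
  refine chain (I := I) (X := fun _ => ℕ) (ι := ι) Set.univ (fun J _ x => ⟨x, Set.mem_univ _, fun _ _ => rfl⟩) v ?_ ?_
    (fun T J y => T.Finite ∧ Set.InjOn y (J : Set I) ∧ ∀ t ∈ T, t.1.1 ∈ J ∧ t.1.2 ∈ J) ?_ ?_ ?_ ?_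
  · intro d _
    exact Set.mem_iUnion.1 ((Set.ext_iff.1 hvc d).2 (Set.mem_univ _))
  · intro d _
    exact hvlf d
  · exact ⟨∅, fun _ => 0, Set.finite_empty, by simp, by simp⟩
  · intro T J y _
    exact Set.mem_univ _
  · rintro T J y ⟨hTf, hinj, hTJ⟩
    refine ⟨⋂ t ∈ T, {x : I → ℕ | x t.1.1 ≠ x t.1.2}, ?_, ?_⟩
    · rw [Filter.biInter_mem hTf]
      intro t ht
      have hc : Continuous (fun x : I → ℕ => (x t.1.1, x t.1.2)) :=
        (continuous_apply _).prodMk (continuous_apply _)
      have ho : IsOpen {x : I → ℕ | x t.1.1 ≠ x t.1.2} :=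
        (isOpen_discrete {q : ℕ × ℕ | q.1 ≠ q.2}).preimage hc
      apply ho.mem_nhds
      intro h
      exact t.2 (hinj (hTJ t ht).1 (hTJ t ht).2 h)
    · intro t ht
      rw [Set.eq_empty_iff_forall_notMem]
      rintro z ⟨hz1, hz2⟩
      exact (Set.mem_iInter₂.1 hz2 t ht) (hvs t hz1)
  · rintro T J y ⟨hTf, hinj, hTJ⟩ T' hT' J'
    let J'' : Finset I := J ∪ J' ∪ (hTf.union hT').toFinset.biUnion (fun t => {t.1.1, t.1.2})
    obtain ⟨e, he⟩ := exists_injective_nat (↥J'')
    let y' : I → ℕ := fun i => if i ∈ J then y i else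
      if h : i ∈ J'' then J.sup y + 1 + e ⟨i, h⟩ else 0
    refine ⟨T ∪ T', J'', y', subset_rfl, ?_, ⟨hTf.union hT', ?_, ?_⟩, ?_⟩
    · intro j hj
      simp only [J'', Finset.coe_union, Set.mem_union]
      left
      exact hj
    · intro i hi j hj hij
      simp only [Finset.mem_coe] at hi hj
      simp only [y'] at hij
      by_cases h1 : i ∈ J
      · by_cases h2 : j ∈ J
        · rw [if_pos h1, if_pos h2] at hij
          exact hinj h1 h2 hij
        · rw [if_pos h1, if_neg h2, dif_pos hj] at hij
          have := Finset.le_sup (f := y) h1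
          omega
      · by_cases h2 : j ∈ J
        · rw [if_neg h1, if_pos h2, dif_pos hi] at hij
          have := Finset.le_sup (f := y) h2
          omega
        · rw [if_neg h1, if_neg h2, dif_pos hi, dif_pos hj] at hij
          have h3 : e ⟨i, hi⟩ = e ⟨j, hj⟩ := by omega
          exact congrArg Subtype.val (he h3)
    · intro t ht
      have h3 : t ∈ (hTf.union hT').toFinset := by simpa using ht
      constructor
      · simp only [J'', Finset.mem_union, Finset.mem_biUnion]
        right
        exact ⟨t, h3, by simp⟩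
      · simp only [J'', Finset.mem_union, Finset.mem_biUnion]
        right
        exact ⟨t, h3, by simp⟩
    · intro j hj
      simp only [y', if_pos hj]

theorem result {I : Type u} [Uncountable I] {X : I → Type v} [∀ i, TopologicalSpace (X i)]
    (hX : ∀ i, ¬ CompactSpace (X i)) (D : Set (∀ i, X i)) (hD : Fills D) :
    ¬ (T2Space D ∧ ParacompactSpace D) := by
  classical
  rintro ⟨h1, h2⟩
  have hfill : FillsCountable D := by
    intro J hJ y
    obtain ⟨d, hd, hdy⟩ := (Set.ext_iff.1 (hD J hJ) y).2 (Set.mem_univ _)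
    exact ⟨d, hd, fun j => congrFun hdy j⟩
  have hXne : ∀ i, Nonempty (X i) := by
    intro i
    by_contra h
    rw [not_nonempty_iff] at h
    exact hX i inferInstance
  have hne : D.Nonempty := by
    obtain ⟨d, hd, _⟩ := hfill ∅ Set.countable_empty (fun j => (hXne j).some)
    exact ⟨d, hd⟩
  have hreg : ∀ i, RegularSpace (X i) := fun i => regular_factor hfill hne i
  have key := fun x => inseparable_of_paracompact hfill hne x
  let q : D → ∀ i, SeparationQuotient (X i) := fun d i => SeparationQuotient.mk (d.1 i)
  have hq : IsInducing q := by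
    have h3 : IsInducing (fun (x : ∀ i, X i) (i : I) => SeparationQuotient.mk (x i)) :=
      IsInducing.piMap (fun i => SeparationQuotient.isInducing_mk)
    exact h3.comp IsInducing.subtypeVal
  have hqi : Function.Injective q := hq.injective
  have hqs : Function.Surjective q := by
    intro φ
    choose x hx using fun i => SeparationQuotient.surjective_mk (φ i)
    obtain ⟨d, hd, hdx⟩ := key x
    refine ⟨⟨d, hd⟩, ?_⟩
    funext i
    show SeparationQuotient.mk (d i) = φ i
    rw [← hx i, SeparationQuotient.mk_eq_mk]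
    exact ((inseparable_pi.1 hdx) i).symm
  let e : D ≃ₜ (∀ i, SeparationQuotient (X i)) :=
    (Equiv.ofBijective q ⟨hqi, hqs⟩).toHomeomorphOfIsInducing hq
  have hPP : ParacompactSpace (∀ i, SeparationQuotient (X i)) := e.paracompactSpace_iff.1 h2
  have hYn : ∀ i, ¬ CompactSpace (SeparationQuotient (X i)) := by
    intro i hc
    apply hX i
    constructor
    rw [SeparationQuotient.isInducing_mk.isCompact_iff, Set.image_univ,
      SeparationQuotient.range_mk]
    exact isCompact_univ
  have hYne : ∀ i, Nonempty (SeparationQuotient (X i)) := fun i => ⟨SeparationQuotient.mk (hXne i).some⟩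
  have hemb : ∀ i, ∃ f : ℕ → SeparationQuotient (X i), IsClosedEmbedding f := by
    intro i
    have : ParacompactSpace (SeparationQuotient (X i)) :=
      (isClosedEmbedding_update (fun i => (hYne i).some) i).paracompactSpace
    exact exists_nat (hYn i)
  choose f hf using hemb
  have hfinal : IsClosedEmbedding (Pi.map f) := IsClosedEmbedding.piMap hf
  have : ParacompactSpace (I → ℕ) := hfinal.paracompactSpace
  exact not_paracompact_nat (I := I) this

end Pool.Agent.Results.MP_5f6599_gt.NotParacompact
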